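import Pool.Agent.Lib.MP_868e2f_al.Tame

/-!
A tame finite-dimensional Hopf algebra, over any algebraically closed field of characteristic
different from two, for which the Balmer spectrum of the stable module category is not
homeomorphic to the projective line.
-/

namespace Pool.Agent.Results.MP_868e2f_al.TameReducible

open Pool.Agent.Lib.MP_868e2f_al

universe u

/-- For every algebraically closed field `k` with `2 ≠ 0` there is a finite-dimensional Hopf
algebra `H` over `k` of tame representation type such that `Spc (stmod H)` is not homeomorphic
to the projective line. -/
theorem result : ∀ (k : Type u) [Field k] [IsAlgClosed k], (2 : k) ≠ 0 →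
    ∃ (H : Type u) (_ : Ring H) (_ : HopfAlgebra k H), FiniteDimensional k H ∧ IsTame k H ∧
      ¬ Nonempty (Spc k H ≃ₜ ProjLine k) := by
  intro k _ _ h2
  exact ⟨H32 k, inferInstance, inferInstance, inferInstance, isTame h2, not_homeo h2⟩

end Pool.Agent.Results.MP_868e2f_al.TameReducible
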